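import Mathlib

open Set Filter Topology Cardinal TopologicalSpace

namespace Pool.Agent.Results.MP_6ca30a_an.NoUniv

/-- `X` is complete over the filter `F` on `ℕ`. -/
def Compl (X : Type) [AddCommGroup X] [TopologicalSpace X] (F : Filter ℕ) : Prop :=
  ∀ x : ℕ → X, (∀ W ∈ 𝓝 (0 : X), ∃ B ∈ F, ∀ m ∈ B, ∀ n ∈ B, x m - x n ∈ W) →
    ∃ y, ∀ V ∈ 𝓝 y, ∃ A ∈ F, ∀ n ∈ A, x n ∈ V

/-- `X` is complete over every free (proper) filter on `ℕ`. -/
def CountablyComplete (X : Type) [AddCommGroup X] [TopologicalSpace X] : Prop :=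
  ∀ F : Filter ℕ, F.NeBot → F ≤ cofinite → Compl X F

def ar (K : Type) : ℕ ⊕ Option K → Type := Sum.elim (fun _ => Empty) (fun _ => ℕ)

noncomputable def ev {K : Type} [RCLike K] (U : Filter ℕ) (e : ℕ → ℝ → K) : WType (ar K) → ℝ → K :=
  WType.elim _ fun p => match p with
    | ⟨Sum.inl n, _⟩ => e n
    | ⟨Sum.inr none, f⟩ => limUnder U (fun n : ℕ => f n)
    | ⟨Sum.inr (some c), f⟩ => c • f (0 : ℕ) + f (1 : ℕ)

lemma card_le (K : Type) [RCLike K] : #(WType (ar K)) ≤ 𝔠 := by
  have hK : #K ≤ 𝔠 := by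
    have : Function.Injective (fun z : K => (RCLike.re z, RCLike.im z)) := fun a b h =>
      RCLike.ext (congrArg Prod.fst h) (congrArg Prod.snd h)
    simpa [mk_real] using mk_le_of_injective this
  refine WType.cardinalMk_le_of_le ((sum_le_sum _ (fun _ => 𝔠) ?_).trans ?_)
  · rintro (n | c)
    · simpa [ar] using (one_le_aleph0.trans aleph0_le_continuum)
    · simp [ar]
  · simp only [sum_const', mk_sum, mk_option, mk_nat, lift_id]
    refine mul_le_of_le aleph0_le_continuum (add_le_of_le aleph0_le_continuum aleph0_le_continuum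
      (add_le_of_le aleph0_le_continuum hK (one_le_aleph0.trans aleph0_le_continuum))) le_rfl

lemma seq (K : Type) [RCLike K] : ∃ e : ℕ → ℝ → K, (∃ n, e n = 0) ∧
    ∀ S : Set ℝ, S.indicator 1 ∈ closure (range e) := by
  have hc : {t : Set (Set ℝ) | t.Finite ∧ t ⊆ countableBasis ℝ}.Countable :=
    countable_setOf_finite_subset (countable_countableBasis ℝ)
  obtain ⟨g, hg⟩ := hc.exists_eq_range ⟨∅, finite_empty, empty_subset _⟩
  refine ⟨fun n => (⋃₀ g n).indicator 1, ?_, fun S => ?_⟩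
  · obtain ⟨n, hn⟩ : ∅ ∈ range g := hg ▸ ⟨finite_empty, empty_subset _⟩
    exact ⟨n, by simp [hn]; rfl⟩
  rw [mem_closure_iff_nhds]
  intro W hW
  rw [nhds_pi, Filter.mem_pi] at hW
  obtain ⟨I, hI, t, ht, hsub⟩ := hW
  have h1 : ∀ p : ℝ, p ∈ S → ∃ V ∈ countableBasis ℝ, p ∈ V ∧ V ⊆ (I \ S)ᶜ := fun p hp =>
    (isBasis_countableBasis ℝ).exists_subset_of_mem_open (fun h => h.2 hp)
      (hI.subset diff_subset).isClosed.isOpen_compl
  choose! V hV using h1
  obtain ⟨n, hn⟩ : V '' (I ∩ S) ∈ range g := hg ▸ ⟨(hI.inter_of_left S).image V, by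
    rintro _ ⟨p, hp, rfl⟩
    exact (hV p hp.2).1⟩
  refine ⟨_, hsub fun p hp => ?_, n, rfl⟩
  have : (⋃₀ g n).indicator (1 : ℝ → K) p = S.indicator 1 p := by
    rw [hn]
    by_cases h : p ∈ S
    · rw [indicator_of_mem h, indicator_of_mem]
      exact ⟨V p, ⟨p, ⟨hp, h⟩, rfl⟩, (hV p h).2.1⟩
    · rw [indicator_of_notMem h, indicator_of_notMem]
      rintro ⟨_, ⟨q, hq, rfl⟩, h'⟩
      exact (hV q hq.2).2.2 h' ⟨hp, h⟩
  show (⋃₀ g n).indicator (1 : ℝ → K) p ∈ t p
  rw [this]
  exact mem_of_mem_nhds (ht p)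

/-- No ultrafilter on `ℕ` is universal: for each one there is a Hausdorff topological vector space
complete over it that is not countably complete. -/
theorem result (K : Type) [RCLike K] (U : Ultrafilter ℕ) :
    ∃ (X : Type) (_ : AddCommGroup X) (_ : Module K X) (_ : TopologicalSpace X),
      IsTopologicalAddGroup X ∧ ContinuousSMul K X ∧ T2Space X ∧ Compl X U ∧ ¬ CountablyComplete X := by
  obtain ⟨e, ⟨n0, hn0⟩, he⟩ := seq K
  let b : ℕ → WType (ar K) := fun n => WType.mk (Sum.inl n) Empty.elim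
  have hb : ∀ n, ev U e (b n) = e n := fun n => rfl
  have hop : ∀ c s t, ∃ w, ev U e w = c • ev U e s + ev U e t := fun c s t =>
    ⟨WType.mk (Sum.inr (some c)) fun n : ℕ => if n = 0 then s else t, rfl⟩
  let X : Submodule K (ℝ → K) :=
    { carrier := range (ev U e)
      add_mem' := by
        rintro _ _ ⟨s, rfl⟩ ⟨t, rfl⟩
        simpa using hop 1 s t
      zero_mem' := ⟨b n0, hn0⟩
      smul_mem' := by
        rintro c _ ⟨s, rfl⟩
        simpa [hb, hn0] using hop c s (b n0) }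
  refine ⟨X, inferInstance, inferInstance, inferInstance, inferInstance, inferInstance, inferInstance, ?_, ?_⟩
  · intro x hx
    have h1 : Cauchy (map (fun n => (x n).1) U) := by
      rw [cauchy_map_iff', uniformity_eq_comap_nhds_zero_swapped, tendsto_comap_iff]
      intro W hW
      obtain ⟨B, hB, h⟩ := hx (Subtype.val ⁻¹' W) (continuous_subtype_val.continuousAt.preimage_mem_nhds hW)
      exact mem_map.2 (mem_of_superset (prod_mem_prod hB hB) fun p hp => h _ hp.1 _ hp.2)
    obtain ⟨y, hy⟩ := CompleteSpace.complete h1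
    choose w hw using fun n => (x n).2
    have h2 : ev U e (WType.mk (Sum.inr none) w) = y := by
      show limUnder U (fun n => ev U e (w n)) = y
      simp only [hw]
      exact Tendsto.limUnder_eq hy
    have h3 : Tendsto x U (𝓝 ⟨y, _, h2⟩) := tendsto_subtype_rng.2 hy
    exact ⟨_, fun V hV => ⟨_, h3 hV, fun n hn => hn⟩⟩
  · intro hc
    obtain ⟨S, hS⟩ : ∃ S : Set ℝ, S.indicator (1 : ℝ → K) ∉ range (ev U e) := by
      by_contra hn
      push Not at hn
      choose w hw using hn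
      have : Function.Injective w := fun S T h => by
        have := (hw S).symm.trans (h ▸ hw T)
        exact indicator_one_inj K this
      have h2 := (mk_le_of_injective this).trans (card_le K)
      rw [mk_set, mk_real] at h2
      exact (cantor _).not_ge h2
    have hne : (comap e (𝓝 (S.indicator 1)) ⊓ cofinite).NeBot := by
      refine inf_neBot_iff.2 fun s hs t ht => ?_
      obtain ⟨W, hW, hs⟩ := hs
      have h1 : (e '' tᶜ)ᶜ ∈ 𝓝 (S.indicator (1 : ℝ → K)) :=
        ((mem_cofinite.1 ht).image e).isClosed.isOpen_compl.mem_nhds fun ⟨n, _, h⟩ => hS ⟨b n, h⟩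
      obtain ⟨_, h2, n, rfl⟩ := mem_closure_iff_nhds.1 (he S) _ (inter_mem hW h1)
      exact ⟨n, hs h2.1, not_not.1 fun h => h2.2 ⟨n, h, rfl⟩⟩
    have ht : Tendsto e (comap e (𝓝 (S.indicator 1)) ⊓ cofinite) (𝓝 (S.indicator 1)) :=
      tendsto_comap.mono_left inf_le_left
    obtain ⟨y, hy⟩ := hc _ hne inf_le_right (fun n => ⟨e n, b n, rfl⟩) (by
      intro W hW
      rw [nhds_subtype_eq_comap] at hW
      obtain ⟨W', hW', hWW⟩ := hW
      have h1 := (ht.comp tendsto_fst).sub (ht.comp (tendsto_snd (f := comap e (𝓝 (S.indicator 1)) ⊓ cofinite)))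
      rw [sub_self] at h1
      obtain ⟨B, hB, h⟩ := mem_prod_self_iff.1 (h1 hW')
      exact ⟨B, hB, fun m hm n hn => hWW (h (mk_mem_prod hm hn))⟩)
    have h1 : Tendsto e (comap e (𝓝 (S.indicator 1)) ⊓ cofinite) (𝓝 y.1) := fun V hV => by
      obtain ⟨A, hA, h⟩ := hy _ (continuous_subtype_val.continuousAt.preimage_mem_nhds hV)
      exact mem_map.2 (mem_of_superset hA h)
    exact hS (tendsto_nhds_unique h1 ht ▸ y.2)

end Pool.Agent.Results.MP_6ca30a_an.NoUniv
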